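import Pool.Agent.Q56.CT.WDefs
import Pool.Agent.Q56.CP.DefsF

/-!
# Products of four curves: definitions
-/

set_option autoImplicit false

open CategoryTheory AlgebraicGeometry

universe u v w

namespace Pool.Agent.Q56.FK

section algebra

variable {K R R' A : Type*} [Field K] [Ring R] [Algebra K R] [Ring R'] [Algebra K R'] [Ring A]
  [Algebra ℚ A]

/-- The elements of `p` anticommute. -/
def AnticommOn (p : Submodule K R) : Prop := ∀ x ∈ p, ∀ y ∈ p, x * y = -(y * x)

/-- The space `p` is not zero. -/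
def IsNonzero (p : Submodule K R) : Prop := ∃ x ∈ p, x ≠ 0

/-- The generalised eigenvectors of `φ` in `p` for the eigenvalue `c` are linear combinations of
the images under `cl` of the elements of `s`. -/
def GenEigSpan (φ : R →ₐ[K] R) (c : K) (p : Submodule K R) (cl : A →+* R) (s : Submodule ℚ A) :
    Prop :=
  ∀ x ∈ p, (∃ n : ℕ, ((φ.toLinearMap - c • (1 : Module.End K R)) ^ n) x = 0) →
    x ∈ Submodule.span K {x | ∃ z ∈ s, x = cl z}

/-- The span of the products `f x * g y`, for `x` in `p` and `y` in `p'`. -/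
def spanTwo {R'' : Type*} [Ring R''] [Algebra K R''] (f : R →ₐ[K] R'') (g : R' →ₐ[K] R'')
    (p : Submodule K R) (p' : Submodule K R') : Submodule K R'' :=
  Submodule.span K {t | ∃ x ∈ p, ∃ y ∈ p', t = f x * g y}

end algebra

open Pool.Agent.H914 Pool.Agent.H914.VarClass Pool.Agent.H914.VarClass.Obj
  Pool.Agent.W492.BB Pool.Agent.Q56.CP Pool.Agent.Q56.CTS

variable {k : Type u} [Field k] {𝒱 : VarClass k} {C : TheoryData.{u, v, 0} 𝒱 ℚ} {K : Type w}
  [Field K]

/-- The Kunneth component `H^1(X) ⊗ H^1(Y)` of the cohomology of `X × Y`. -/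
noncomputable def oneOne (H : WeilTheoryData.{u, v, w} C K) (X Y : 𝒱.Obj) :
    Submodule K (H.A (X.prod Y)) :=
  spanTwo (H.pull (fst X Y)) (H.pull (snd X Y)) (H.gr X 1) (H.gr Y 1)

/-- The product `(X × X) × (X × B)`. -/
noncomputable def four (X B : 𝒱.Obj) : 𝒱.Obj := (X.prod X).prod (X.prod B)

/-- The Kunneth component `H^1(X) ⊗ H^1(X) ⊗ H^1(X) ⊗ H^1(B)` of the cohomology of
`X × X × X × B`. -/
noncomputable def oneOneOneOne (H : WeilTheoryData.{u, v, w} C K) (X B : 𝒱.Obj) :
    Submodule K (H.A (four X B)) :=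
  spanTwo (H.pull (fst (X.prod X) (X.prod B))) (H.pull (snd (X.prod X) (X.prod B)))
    (oneOne H X X) (oneOne H X B)

/-- The Tate classes of codimension `j` in the subspace `p` of the cohomology of `W` (the
generalised eigenvectors of the Frobenius endomorphism for the eigenvalue `q ^ j`) are linear
combinations of classes of cycles. -/
def TateIn (H : WeilTheoryData.{u, v, w} C K) (Fr : ∀ X : 𝒱.Obj, X ⟶ X) (q : ℕ) (W : 𝒱.Obj)
    (j : ℕ) (p : Submodule K (H.A W)) : Prop :=
  GenEigSpan (H.pull (Fr W)) ((q : K) ^ j) p H.cl (C.gr W j)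

/-- Every homologically trivial self-correspondence of degree zero of `X` is nilpotent modulo
rational equivalence. -/
def HomNilp (H : WeilTheoryData.{u, v, w} C K) (X : 𝒱.Obj) : Prop :=
  ∀ Γ ∈ C.gr (X.prod X) X.dim, H.cl Γ = 0 → ∃ n : ℕ, itC C Γ n = 0

/-- The class `𝒞` has the properties of the class of all curves over the field with `q` elements:
the members have dimension one; homologically trivial self-correspondences of products of members
are nilpotent (Kimura); any three Weil numbers of weight one are eigenvalues of the Frobenius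
endomorphism on `H^1(X)` for some `X` in `𝒞` (Honda, Tate; every abelian variety is a quotient of a
Jacobian); and the Tate classes in `H^1(X) ⊗ H^1(Y)`, on `X × Y` for `X`, `Y` in `𝒞`, are
combinations of classes of divisors (Tate). -/
structure IsCurveClass [CharZero K] (H : WeilTheoryData.{u, v, w} C K)
    (Fr : ∀ X : 𝒱.Obj, X ⟶ X) (q : ℕ) (𝒞 : Set 𝒱.Obj) : Prop where
  dim : ∀ X ∈ 𝒞, X.dim = 1
  nilp : ∀ W ∈ allProds 𝒞, HomNilp H W
  honda : ∀ s : Fin 3 → K, (∀ i, IsWeilNumber q 1 (s i)) →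
    ∃ X ∈ 𝒞, ∀ i, IsEigOn (H.pull (Fr X)) (H.gr X 1) (s i)
  tate : ∀ X ∈ 𝒞, ∀ Y ∈ 𝒞, TateIn H Fr q (X.prod Y) 1 (oneOne H X Y)

/-- All pure theories (for example the higher Chow groups and the higher `K`-groups with rational
coefficients) vanish on `Z` in weight `r`. -/
def ParshinIn (C : TheoryData.{u, v, 0} 𝒱 ℚ) (Fr : ∀ X : 𝒱.Obj, X ⟶ X) (q : ℕ) (r : ℤ)
    (Z : 𝒱.Obj) : Prop :=
  ∀ T : Pure C Fr q, T.gr Z r = ⊥

end Pool.Agent.Q56.FK
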