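import Pool.Agent.Q56.FK.Defs
import Pool.Agent.Q56.CU.AJ
import Pool.Agent.Q56.CP.Fam

/-!
# Products of four curves
-/

set_option autoImplicit false
set_option linter.unusedSectionVars false

open CategoryTheory AlgebraicGeometry

universe u v w

namespace Pool.Agent.Q56.FK

open Module Pool.Agent.H914 Pool.Agent.H914.VarClass Pool.Agent.H914.VarClass.Obj
  Pool.Agent.W492.BB Pool.Agent.W550.Corr Pool.Agent.TH133 Pool.Agent.W484.CH Pool.Agent.Q56.FD
  Pool.Agent.Q56.FE Pool.Agent.Q56.FR Pool.Agent.Y133.Half Pool.Agent.Q56.CP Pool.Agent.W458.MF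
  Pool.Agent.Q56.CTS Pool.Agent.Q56.CT
open Pool.Agent.Q56.CU (Let word labs word_cons word_nil word_append word_perm word_pull word_gen
  word_weil weight_unique split_word card_labs Alg alg_contract alg_zero alg_add alg_cancel0
  contract aTot_mul aTot_pull one_mem_aTot cl_mem_aTot gen_mul gen_pull' gen_iff gr_gen
  exists_dual_of Rules1 Ok egL eg exists_eigenvalue numTate_of_vanish)

variable {k : Type u} [Field k] {𝒱 : VarClass k} {C : TheoryData.{u, v, 0} 𝒱 ℚ} {K : Type w}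
  [Field K] [CharZero K] {H : WeilTheoryData.{u, v, w} C K} [hC : IsChowProj C]
  [hH : IsWeilProj H] {Fr : ∀ X : 𝒱.Obj, X ⟶ X} {p a : ℕ} [Fact p.Prime] {𝒞 : Set 𝒱.Obj}
  {B V V' X Y Z W : 𝒱.Obj}

lemma cl_eq_zero_of_act {Γ : C.A (X.prod Y)} (h : ∀ a : H.A X, H.act (H.cl Γ) a = 0) :
    H.cl Γ = 0 := by
  apply H.nondeg
  intro b
  refine homog_induction H.toTheoryData (p := fun b => H.tr (X.prod Y) (H.cl Γ * b) = 0) ?_ ?_ b
  · intro m b hb
    have h1 := H.kunneth X Y m hb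
    clear hb
    induction h1 using Submodule.span_induction with
    | mem x hx =>
      obtain ⟨l, c, e, -, -, rfl⟩ := hx
      have h2 : H.cl Γ * H.pull (fst X Y) c * H.pull (snd X Y) e =
          H.cl Γ * (H.pull (fst X Y) c * H.pull (snd X Y) e) := mul_assoc _ _ _
      have h3 := h c
      change H.push (snd X Y) (H.cl Γ * H.pull (fst X Y) c) = 0 at h3
      change H.tr (X.prod Y) (H.cl Γ * (H.pull (fst X Y) c * H.pull (snd X Y) e)) = 0
      rw [← h2, tr_snd, h3, zero_mul, map_zero]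
    | zero => rw [mul_zero, map_zero]
    | add x y _ _ hx hy => rw [mul_add, map_add, hx, hy, add_zero]
    | smul c x _ hx => rw [mul_smul_comm, map_smul, hx, smul_zero]
  · intro x y hx hy
    rw [mul_add, map_add, hx, hy, add_zero]

lemma homNilp_nilp (h : HomNilp H X) : Nilp H X := fun Γ hΓ h0 => h Γ hΓ (cl_eq_zero_of_act h0)

/-- The dual class on a curve. -/
lemma exists_dual_curve [IsAlgClosed K] (hFr : IsFrobTheory H Fr p a) (hY : Y.dim = 1) {x : H.A Y}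
    (hx : x ∈ H.gr Y 1) (hx0 : x ≠ 0) {r : K} (hr : IsWeilNumber (p ^ a) 1 r)
    (hxg : x ∈ (hF H (Fr Y)).maxGenEigenspace r) :
    ∃ x' ∈ H.gr Y 1, x' ∈ (hF H (Fr Y)).maxGenEigenspace (((p ^ a : ℕ) : K) / r) ∧
      x * x' * 1 ∈ H.gr Y (2 * Y.dim) ∧ H.tr Y (x * x' * 1) ≠ 0 :=
  exists_dual_of (c := (1 : H.A Y)) hFr hr (m := 0) hx hxg
    (by omega) (H.one_mem Y) (by rw [map_one, pow_zero, one_smul])
    (fun z => by rw [one_mul, mul_one]) (by
      by_contra hcon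
      push Not at hcon
      apply hx0
      apply H.nondeg
      intro b
      refine homog_induction H.toTheoryData (p := fun b => H.tr Y (x * b) = 0) ?_ ?_ b
      · intro i b hb
        by_cases hi : i = 1
        · subst hi
          have h1 := hcon b hb
          rwa [one_mul] at h1
        · exact tr_zero H (H.mul_mem hx hb) (by omega)
      · intro a b ha hb
        rw [mul_add, map_add, ha, hb, add_zero])

/-- Contraction over a curve. -/
lemma alg_cancelC [IsAlgClosed K] (hFr : IsFrobTheory H Fr p a)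
    (hA : IsCurveClass H Fr (p ^ a) 𝒞) (s : Multiset (K ⊕ K)) (y : K)
    (hy : IsWeilNumber (p ^ a) 1 y)
    (h : Alg H Fr 𝒞 B (s + {Sum.inl y, Sum.inl (((p ^ a : ℕ) : K) / y)})) :
    Alg H Fr 𝒞 B s := by
  obtain ⟨Y, hY, hy3⟩ := hA.honda (fun _ => y) fun _ => hy
  obtain ⟨x, hx, hx0, hxy⟩ := hy3 0
  have hxg : x ∈ (hF H (Fr Y)).maxGenEigenspace y := eig_mem_gen hxy
  obtain ⟨x', hx', hg', htop, htr⟩ := exists_dual_curve hFr (hA.dim Y hY) hx hx0 hy hxg
  exact alg_contract (y := Sum.inl y) (y' := Sum.inl (((p ^ a : ℕ) : K) / y)) (Y := Y) hY hY hx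
    hx' one_mem_aTot hxg hg' htop htr h

/-- Pairs of letters on curves. -/
lemma pair_mem (hFr : IsFrobTheory H Fr p a) (hA : IsCurveClass H Fr (p ^ a) 𝒞) (hX : X ∈ 𝒞)
    (hY : Y ∈ 𝒞) (f : V ⟶ X) (g : V ⟶ Y) {α β : K} {x : H.A X} {y : H.A Y} (hx : x ∈ H.gr X 1)
    (hy : y ∈ H.gr Y 1) (hxg : x ∈ (hF H (Fr X)).maxGenEigenspace α)
    (hyg : y ∈ (hF H (Fr Y)).maxGenEigenspace β) (h : α * β = ((p ^ a : ℕ) : K)) :
    H.pull f x * H.pull g y ∈ aTot H V := by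
  have h1 : H.pull (fst X Y) x * H.pull (snd X Y) y ∈
      (hF H (Fr (X.prod Y))).maxGenEigenspace ((p ^ a : ℕ) : K) := by
    rw [← h]
    exact gen_mul (gen_pull' hFr.nat (fst X Y) hxg) (gen_pull' hFr.nat (snd X Y) hyg)
  have h2 := hA.tate X hX Y hY _ (Submodule.subset_span ⟨x, hx, y, hy, rfl⟩)
    (gen_iff.2 (by rw [pow_one]; exact h1))
  have h3 := aTot_pull (Obj.lift f g) (aSpan_le 1 h2)
  rwa [map_mul, ← H.pull_comp, ← H.pull_comp, lift_fst, lift_snd] at h3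

/-- Four letters. -/
lemma four_word_mem (hFr : IsFrobTheory H Fr p a)
    (hT : TateIn H Fr (p ^ a) (four X B) 2 (oneOneOneOne H X B)) (f₁ f₂ f₃ : V ⟶ X) (f₄ : V ⟶ B) {α₁ α₂ α₃ α₄ : K}
    {x₁ x₂ x₃ : H.A X} {x₄ : H.A B} (hx₁ : x₁ ∈ H.gr X 1) (hx₂ : x₂ ∈ H.gr X 1)
    (hx₃ : x₃ ∈ H.gr X 1) (hx₄ : x₄ ∈ H.gr B 1)
    (hg₁ : x₁ ∈ (hF H (Fr X)).maxGenEigenspace α₁) (hg₂ : x₂ ∈ (hF H (Fr X)).maxGenEigenspace α₂)
    (hg₃ : x₃ ∈ (hF H (Fr X)).maxGenEigenspace α₃) (hg₄ : x₄ ∈ (hF H (Fr B)).maxGenEigenspace α₄)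
    (h : α₁ * α₂ * α₃ * α₄ = ((p ^ a : ℕ) : K) ^ 2) :
    H.pull f₁ x₁ * H.pull f₂ x₂ * H.pull f₃ x₃ * H.pull f₄ x₄ ∈ aTot H V := by
  have h12 : H.pull (fst (X.prod X) (X.prod B))
      (H.pull (fst X X) x₁ * H.pull (snd X X) x₂) * H.pull (snd (X.prod X) (X.prod B))
      (H.pull (fst X B) x₃ * H.pull (snd X B) x₄) ∈
      (hF H (Fr ((X.prod X).prod (X.prod B)))).maxGenEigenspace (((p ^ a : ℕ) : K) ^ 2) := by
    rw [← h, mul_assoc (α₁ * α₂)]
    exact gen_mul (gen_pull' hFr.nat (fst (X.prod X) (X.prod B))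
      (gen_mul (gen_pull' hFr.nat (fst X X) hg₁) (gen_pull' hFr.nat (snd X X) hg₂)))
      (gen_pull' hFr.nat (snd (X.prod X) (X.prod B))
      (gen_mul (gen_pull' hFr.nat (fst X B) hg₃) (gen_pull' hFr.nat (snd X B) hg₄)))
  have hm₁ : H.pull (fst X X) x₁ * H.pull (snd X X) x₂ ∈ oneOne H X X :=
    Submodule.subset_span ⟨x₁, hx₁, x₂, hx₂, rfl⟩
  have hm₂ : H.pull (fst X B) x₃ * H.pull (snd X B) x₄ ∈ oneOne H X B :=
    Submodule.subset_span ⟨x₃, hx₃, x₄, hx₄, rfl⟩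
  have hm : H.pull (fst (X.prod X) (X.prod B))
      (H.pull (fst X X) x₁ * H.pull (snd X X) x₂) * H.pull (snd (X.prod X) (X.prod B))
      (H.pull (fst X B) x₃ * H.pull (snd X B) x₄) ∈
      spanTwo (H.pull (fst (X.prod X) (X.prod B))) (H.pull (snd (X.prod X) (X.prod B)))
        (oneOne H X X) (oneOne H X B) :=
    Submodule.subset_span ⟨_, hm₁, _, hm₂, rfl⟩
  have h16 := hT _ hm (gen_iff.2 h12)
  have h16' : H.pull (fst (X.prod X) (X.prod B))
      (H.pull (fst X X) x₁ * H.pull (snd X X) x₂) * H.pull (snd (X.prod X) (X.prod B))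
      (H.pull (fst X B) x₃ * H.pull (snd X B) x₄) ∈ aSpan H ((X.prod X).prod (X.prod B)) 2 := h16
  have h17 := aTot_pull (Obj.lift (Obj.lift f₁ f₂) (Obj.lift f₃ f₄)) (aSpan_le 2 h16')
  rw [map_mul, ← H.pull_comp, ← H.pull_comp, lift_fst, lift_snd, map_mul, ← H.pull_comp,
    ← H.pull_comp, lift_fst, lift_snd, map_mul, ← H.pull_comp, ← H.pull_comp, lift_fst,
    lift_snd, ← mul_assoc] at h17
  exact h17

/-- Contraction of a pair of letters. -/
lemma word_contract {y y' : K ⊕ K} {Y : 𝒱.Obj} (hok : Ok 𝒞 B Y y)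
    (hok' : Ok 𝒞 B Y y') {x x' : H.A Y} (hx : x ∈ H.gr Y 1) (hx' : x' ∈ H.gr Y 1)
    (hg : x ∈ (hF H (Fr Y)).maxGenEigenspace (egL y))
    (hg' : x' ∈ (hF H (Fr Y)).maxGenEigenspace (egL y'))
    (htop : x * x' * 1 ∈ H.gr Y (2 * Y.dim))
    (htr : H.tr Y (x * x' * 1) ≠ 0) {L : List (Let H Fr 𝒞 B V)}
    (h : word (L.map (Let.pull (fst V Y)) ++ [(⟨Y, snd V Y, y, hok, x, hx, hg⟩ :
      Let H Fr 𝒞 B (V.prod Y)), ⟨Y, snd V Y, y', hok', x', hx', hg'⟩]) ∈
      aTot H (V.prod Y)) : word L ∈ aTot H V := by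
  have h2 : word (L.map (Let.pull (fst V Y)) ++ [(⟨Y, snd V Y, y, hok, x, hx, hg⟩ :
      Let H Fr 𝒞 B (V.prod Y)), ⟨Y, snd V Y, y', hok', x', hx', hg'⟩]) =
      H.pull (fst V Y) (word L) * H.pull (snd V Y) (x * x' * 1) := by
    rw [mul_one, word_append, word_pull, word_cons, word_cons, word_nil, mul_one, map_mul]
    rfl
  rw [h2] at h
  exact contract htop htr h

/-- Ten letters. -/
lemma word_ten (hcomm : CU.Anticommute H) (m₁ m₂ m₃ m₄ a₁ b₁ a₂ b₂ a₃ b₃ : Let H Fr 𝒞 B V) :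
    ∃ c : K, word [m₁, m₂, m₃, m₄, a₁, b₁, a₂, b₂, a₃, b₃] =
      c • (a₁.val * a₂.val * a₃.val * m₄.val * (m₁.val * b₁.val * (m₂.val * b₂.val *
        (m₃.val * b₃.val)))) := by
  have h1 : [m₁, m₂, m₃, m₄, a₁, b₁, a₂, b₂, a₃, b₃].Perm
      [a₁, a₂, a₃, m₄, m₁, b₁, m₂, b₂, m₃, b₃] := by
    rw [← Multiset.coe_eq_coe]
    simp only [← Multiset.cons_coe, Multiset.coe_nil, ← Multiset.singleton_add]
    abel
  obtain ⟨c, hc⟩ := word_perm hcomm h1
  refine ⟨c, ?_⟩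
  rw [hc]
  simp only [word_cons, word_nil, mul_one, mul_assoc]

/-- **The words of length four.** -/
lemma alg_midC [IsAlgClosed K] (hcomm : CU.Anticommute H) (hFr : IsFrobTheory H Fr p a)
    (hA : IsCurveClass H Fr (p ^ a) 𝒞)
    (hT : ∀ X ∈ 𝒞, TateIn H Fr (p ^ a) (four X B) 2 (oneOneOneOne H X B)) (z w y t : K)
    (hz : IsWeilNumber (p ^ a) 1 z) (hw : IsWeilNumber (p ^ a) 1 w)
    (hy : IsWeilNumber (p ^ a) 1 y) (ht : IsWeilNumber (p ^ a) 1 t) (h : z * w = y * t) :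
    Alg H Fr 𝒞 B {Sum.inl z, Sum.inl w, Sum.inl (((p ^ a : ℕ) : K) / y),
      Sum.inr (((p ^ a : ℕ) : K) / t)} := by
  have hq : 0 < p ^ a := pow_pos (Fact.out : p.Prime).pos a
  have hq0 : ((p ^ a : ℕ) : K) ≠ 0 := by exact_mod_cast hq.ne'
  have hy0 := weil_ne hq hy
  have ht0 := weil_ne hq ht
  intro V L hL
  obtain ⟨L₁, L₂, c, h1, h2, h3⟩ := split_word hcomm (s := {Sum.inl z, Sum.inl w,
    Sum.inl (((p ^ a : ℕ) : K) / y)}) (t := {Sum.inr (((p ^ a : ℕ) : K) / t)}) (by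
      rw [hL]
      simp only [Multiset.insert_eq_cons, ← Multiset.singleton_add]
      abel)
  rw [h3]
  refine Submodule.smul_mem _ _ ?_
  -- the letter on the fixed variety
  obtain ⟨l₄, rfl⟩ : ∃ l, L₂ = [l] := by
    apply List.length_eq_one_iff.1
    rw [← card_labs, h2, Multiset.card_singleton]
  have hlab : l₄.lab = Sum.inr (((p ^ a : ℕ) : K) / t) := by
    rw [CU.labs_cons, CU.labs_nil] at h2
    exact Multiset.singleton_inj.1 h2
  -- the other letters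
  have hlen : L₁.length = 3 := by
    rw [← card_labs, h1]
    rfl
  have hinl : ∀ l ∈ L₁, ∃ α, l.lab = Sum.inl α ∧ IsWeilNumber (p ^ a) 1 α := by
    intro l hl
    have h4 : l.lab ∈ labs L₁ := Multiset.mem_map_of_mem _ hl
    rw [h1] at h4
    simp only [Multiset.insert_eq_cons, Multiset.mem_cons, Multiset.mem_singleton] at h4
    rcases h4 with h4 | h4 | h4
    · exact ⟨_, h4, hz⟩
    · exact ⟨_, h4, hw⟩
    · exact ⟨_, h4, weil_conj hq hy⟩
  have hprod : eg (labs L₁) = z * (w * (((p ^ a : ℕ) : K) / y)) := by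
    rw [h1, eg]
    simp only [Multiset.insert_eq_cons, Multiset.map_cons, Multiset.map_singleton,
      Multiset.prod_cons, Multiset.prod_singleton]
    rfl
  obtain ⟨l₁, l₂, l₃, rfl⟩ : ∃ l₁ l₂ l₃, L₁ = [l₁, l₂, l₃] := List.length_eq_three.1 hlen
  obtain ⟨α₁, hα₁, hW₁⟩ := hinl l₁ (by simp)
  obtain ⟨α₂, hα₂, hW₂⟩ := hinl l₂ (by simp)
  obtain ⟨α₃, hα₃, hW₃⟩ := hinl l₃ (by simp)
  have hα : α₁ * α₂ * α₃ * (((p ^ a : ℕ) : K) / t) = ((p ^ a : ℕ) : K) ^ 2 := by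
    have h16 : α₁ * α₂ * α₃ = z * (w * (((p ^ a : ℕ) : K) / y)) := by
      rw [← hprod, CU.labs_cons, CU.labs_cons, CU.labs_cons, CU.labs_nil, eg]
      simp only [Multiset.map_cons, Multiset.prod_cons, Multiset.map_zero, Multiset.prod_zero]
      rw [hα₁, hα₂, hα₃]
      change α₁ * α₂ * α₃ = α₁ * (α₂ * (α₃ * 1))
      ring
    rw [h16]
    have h15 : z * (w * (((p ^ a : ℕ) : K) / y)) * (((p ^ a : ℕ) : K) / t) =
        (z * w) * ((p ^ a : ℕ) : K) ^ 2 / (y * t) := by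
      field_simp
    rw [h15, h, mul_div_assoc, mul_div_cancel₀ _ (mul_ne_zero hy0 ht0)]
  clear hL h3 h1 h2 hlen hinl hprod h hz hw hy hy0
  -- the curve
  obtain ⟨X, hX, h123⟩ := hA.honda ![α₁, α₂, α₃] (by
    intro i
    fin_cases i
    · exact hW₁
    · exact hW₂
    · exact hW₃)
  obtain ⟨x₁, hx₁, h0₁, he₁⟩ := h123 0
  obtain ⟨x₂, hx₂, h0₂, he₂⟩ := h123 1
  obtain ⟨x₃, hx₃, h0₃, he₃⟩ := h123 2
  have hg₁ : x₁ ∈ (hF H (Fr X)).maxGenEigenspace α₁ := eig_mem_gen he₁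
  have hg₂ : x₂ ∈ (hF H (Fr X)).maxGenEigenspace α₂ := eig_mem_gen he₂
  have hg₃ : x₃ ∈ (hF H (Fr X)).maxGenEigenspace α₃ := eig_mem_gen he₃
  obtain ⟨x₁', hx₁', hg₁', htop₁, htr₁⟩ := exists_dual_curve hFr (hA.dim X hX) hx₁ h0₁ hW₁ hg₁
  obtain ⟨x₂', hx₂', hg₂', htop₂, htr₂⟩ := exists_dual_curve hFr (hA.dim X hX) hx₂ h0₂ hW₂ hg₂
  obtain ⟨x₃', hx₃', hg₃', htop₃, htr₃⟩ := exists_dual_curve hFr (hA.dim X hX) hx₃ h0₃ hW₃ hg₃
  have hpair : ∀ {α : K}, IsWeilNumber (p ^ a) 1 α →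
      α * (((p ^ a : ℕ) : K) / α) = ((p ^ a : ℕ) : K) := fun hW =>
    mul_div_cancel₀ _ (weil_ne hq hW)
  rw [← word_append]
  refine word_contract (y := Sum.inl α₁) (y' := Sum.inl (((p ^ a : ℕ) : K) / α₁)) hX hX hx₁ hx₁'
    hg₁ hg₁' htop₁ htr₁ ?_
  refine word_contract (y := Sum.inl α₂) (y' := Sum.inl (((p ^ a : ℕ) : K) / α₂)) hX hX hx₂ hx₂'
    hg₂ hg₂' htop₂ htr₂ ?_
  refine word_contract (y := Sum.inl α₃) (y' := Sum.inl (((p ^ a : ℕ) : K) / α₃)) hX hX hx₃ hx₃'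
    hg₃ hg₃' htop₃ htr₃ ?_
  obtain ⟨Y₄, f₄, lab, ok, x₄, hx₄, hg₄⟩ := l₄
  simp only at hlab
  subst hlab
  have hYB : Y₄ = B := ok
  subst hYB
  simp only [List.map_cons, List.map_nil, List.cons_append, List.nil_append]
  obtain ⟨c, hc⟩ := word_ten hcomm
    ((((l₁.pull (fst V X)).pull (fst (V.prod X) X)).pull (fst ((V.prod X).prod X) X)))
    ((((l₂.pull (fst V X)).pull (fst (V.prod X) X)).pull (fst ((V.prod X).prod X) X)))
    ((((l₃.pull (fst V X)).pull (fst (V.prod X) X)).pull (fst ((V.prod X).prod X) X)))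
    (((((⟨Y₄, f₄, _, ok, x₄, hx₄, hg₄⟩ : Let H Fr 𝒞 Y₄ V).pull (fst V X)).pull
      (fst (V.prod X) X)).pull (fst ((V.prod X).prod X) X)))
    (((⟨X, snd V X, Sum.inl α₁, hX, x₁, hx₁, hg₁⟩ : Let H Fr 𝒞 Y₄ (V.prod X)).pull
      (fst (V.prod X) X)).pull (fst ((V.prod X).prod X) X))
    (((⟨X, snd V X, Sum.inl (((p ^ a : ℕ) : K) / α₁), hX, x₁', hx₁', hg₁'⟩ :
      Let H Fr 𝒞 Y₄ (V.prod X)).pull (fst (V.prod X) X)).pull (fst ((V.prod X).prod X) X))
    ((⟨X, snd (V.prod X) X, Sum.inl α₂, hX, x₂, hx₂, hg₂⟩ :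
      Let H Fr 𝒞 Y₄ ((V.prod X).prod X)).pull (fst ((V.prod X).prod X) X))
    ((⟨X, snd (V.prod X) X, Sum.inl (((p ^ a : ℕ) : K) / α₂), hX, x₂', hx₂', hg₂'⟩ :
      Let H Fr 𝒞 Y₄ ((V.prod X).prod X)).pull (fst ((V.prod X).prod X) X))
    (⟨X, snd ((V.prod X).prod X) X, Sum.inl α₃, hX, x₃, hx₃, hg₃⟩ :
      Let H Fr 𝒞 Y₄ (((V.prod X).prod X).prod X))
    (⟨X, snd ((V.prod X).prod X) X, Sum.inl (((p ^ a : ℕ) : K) / α₃), hX, x₃', hx₃', hg₃'⟩ :
      Let H Fr 𝒞 Y₄ (((V.prod X).prod X).prod X))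
  rw [hc]
  have hl : ∀ {W : 𝒱.Obj} (l : Let H Fr 𝒞 Y₄ W) (α : K), l.lab = Sum.inl α →
      l.Y ∈ 𝒞 ∧ l.x ∈ (hF H (Fr l.Y)).maxGenEigenspace α := by
    intro W l α hα
    refine ⟨?_, ?_⟩
    · have h4 := l.ok
      rw [hα] at h4
      exact h4
    · have h4 := l.hg
      rw [hα] at h4
      exact h4
  refine Submodule.smul_mem _ _ (aTot_mul ?_ (aTot_mul ?_ (aTot_mul ?_ ?_)))
  · exact four_word_mem hFr (hT X hX) _ _ _ _ hx₁ hx₂ hx₃ hx₄ hg₁ hg₂ hg₃ hg₄ hα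
  · exact pair_mem hFr hA (hl l₁ _ hα₁).1 hX _ _ l₁.hx hx₁' (hl l₁ _ hα₁).2 hg₁' (hpair hW₁)
  · exact pair_mem hFr hA (hl l₂ _ hα₂).1 hX _ _ l₂.hx hx₂' (hl l₂ _ hα₂).2 hg₂' (hpair hW₂)
  · exact pair_mem hFr hA (hl l₃ _ hα₃).1 hX _ _ l₃.hx hx₃' (hl l₃ _ hα₃).2 hg₃' (hpair hW₃)

/-- All rules hold. -/
theorem rulesC [IsAlgClosed K] (hcomm : CU.Anticommute H) (hFr : IsFrobTheory H Fr p a)
    (hA : IsCurveClass H Fr (p ^ a) 𝒞) (hB : B.dim = 1) {x : H.A B} (hx : x ∈ H.gr B 1)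
    (hx0 : x ≠ 0)
    {r : K} (hr : IsWeilNumber (p ^ a) 1 r) (hxg : x ∈ (hF H (Fr B)).maxGenEigenspace r)
    (hT : ∀ X ∈ 𝒞, TateIn H Fr (p ^ a) (four X B) 2 (oneOneOneOne H X B)) :
    Rules1 (p ^ a) r (Alg H Fr 𝒞 B) where
  one := alg_zero
  add _ _ hs ht := alg_add hcomm hs ht
  cancel s y hy h := alg_cancelC hFr hA s y hy h
  cancel0 s h := alg_cancel0 hFr hB hx hx0 hr hxg s h
  mid z w y t hz hw hy ht h := alg_midC hcomm hFr hA hT z w y t hz hw hy ht h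

/-! ### Words and algebraic classes -/

/-- the span of the products of words in letters on members of the class and algebraic classes -/
def WC (H : WeilTheoryData.{u, v, w} C K) (Fr : ∀ X : 𝒱.Obj, X ⟶ X) (𝒞 : Set 𝒱.Obj)
    (B V : 𝒱.Obj) : Submodule K (H.A V) :=
  Submodule.span K {v | ∃ (L : List (Let H Fr 𝒞 B V)) (i : ℕ) (z : C.A V),
    (∀ l ∈ L, ∃ α, l.lab = Sum.inl α) ∧ C.Deg i z ∧ v = word L * H.cl z}

lemma WC_mul {x y : H.A V} (hx : x ∈ WC H Fr 𝒞 B V) (hy : y ∈ WC H Fr 𝒞 B V) :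
    x * y ∈ WC H Fr 𝒞 B V := by
  unfold WC at hx hy ⊢
  induction hx using Submodule.span_induction with
  | mem v hv =>
    obtain ⟨L, i, z, hL, hz, rfl⟩ := hv
    induction hy using Submodule.span_induction with
    | mem u hu =>
      obtain ⟨L', i', z', hL', hz', rfl⟩ := hu
      refine Submodule.subset_span ⟨L ++ L', i + i', z * z', fun l hl => ?_, ?_, ?_⟩
      · rcases List.mem_append.1 hl with h | h
        · exact hL l h
        · exact hL' l h
      · have h1 := C.mul_mem hz hz'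
        exact_mod_cast h1
      · rw [word_append, map_mul, mul_assoc, mul_assoc, ← mul_assoc (H.cl z), H.cl_central z,
          mul_assoc]
    | zero => rw [mul_zero]; exact Submodule.zero_mem _
    | add x y _ _ hx hy => rw [mul_add]; exact Submodule.add_mem _ hx hy
    | smul c x _ hx => rw [mul_smul_comm]; exact Submodule.smul_mem _ _ hx
  | zero => rw [zero_mul]; exact Submodule.zero_mem _
  | add x y _ _ hx hy => rw [add_mul]; exact Submodule.add_mem _ hx hy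
  | smul c x _ hx => rw [smul_mul_assoc]; exact Submodule.smul_mem _ _ hx

lemma WC_pull (g : V' ⟶ V) {x : H.A V} (hx : x ∈ WC H Fr 𝒞 B V) :
    H.pull g x ∈ WC H Fr 𝒞 B V' := by
  unfold WC at hx ⊢
  refine (Submodule.span_le (p := (Submodule.span K {v | ∃ (L : List (Let H Fr 𝒞 B V')) (i : ℕ)
    (z : C.A V'), (∀ l ∈ L, ∃ α, l.lab = Sum.inl α) ∧ C.Deg i z ∧
      v = word L * H.cl z}).comap (H.pull g).toLinearMap)).2 ?_ hx
  rintro _ ⟨L, i, z, hL, hz, rfl⟩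
  refine Submodule.subset_span ⟨L.map (Let.pull g), i, C.pull g z, ?_, C.pull_mem g hz, ?_⟩
  · intro l hl
    obtain ⟨l', hl', rfl⟩ := List.mem_map.1 hl
    exact hL l' hl'
  · rw [word_pull, H.cl_pull, ← map_mul]
    rfl

/-- The class of a point of a curve spans the top degree. -/
lemma WC_curve [IsAlgClosed K] (hFr : IsFrobTheory H Fr p a)
    (hA : IsCurveClass H Fr (p ^ a) 𝒞) (hY : Y ∈ 𝒞) (x : H.A Y) : x ∈ WC H Fr 𝒞 B Y := by
  have hdim := hA.dim Y hY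
  refine homog_induction H.toTheoryData (p := fun x => x ∈ WC H Fr 𝒞 B Y) ?_ ?_ x
  · intro i x hx
    rcases lt_trichotomy i 0 with hi | hi | hi
    · rw [H.gr_neg Y i hi, Submodule.mem_bot] at hx
      rw [hx]
      exact Submodule.zero_mem _
    · subst hi
      obtain ⟨c, rfl⟩ := hH.gr_zero Y x hx
      refine Submodule.smul_mem _ _ (Submodule.subset_span ⟨[], 0, 1, by simp, ?_, ?_⟩)
      · exact_mod_cast C.one_mem Y
      · rw [word_nil, map_one, mul_one]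
    · by_cases hi1 : i = 1
      · subst hi1
        have h2 := gr_gen (hFr.finite Y) (Fr Y) hx
        refine (Submodule.span_le (p := WC H Fr 𝒞 B Y)).2 ?_ h2
        rintro v ⟨hv1, μ, hv2⟩
        refine Submodule.subset_span
          ⟨[(⟨Y, 𝟙 Y, Sum.inl μ, hY, v, hv1, hv2⟩ : Let H Fr 𝒞 B Y)], 0, 1, fun l hl => ?_,
            ?_, ?_⟩
        · rw [List.mem_singleton.1 hl]
          exact ⟨μ, rfl⟩
        · exact_mod_cast C.one_mem Y
        · rw [word_cons, word_nil, mul_one, map_one, mul_one]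
          exact (H.pull_id v).symm
      · by_cases hi2 : i = 2
        · subst hi2
          -- the class of a point
          obtain ⟨a₀, ha₀, ha₁, -⟩ := exists_deg_one C Y
          have h2 : H.cl a₀ ∈ H.gr Y 2 := by
            have h3 := H.cl_mem ha₀
            rw [hdim] at h3
            exact_mod_cast h3
          have h3 : ∃ c : K, x = c • H.cl a₀ := by
            have h5 := H.push_mem (snd Y Y) (H.pull_mem (fst Y Y) hx)
            have h6 : 2 + 2 * ((Y.dim : ℤ) - (Y.prod Y).dim) = 0 := by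
              rw [Obj.dim_prod, hdim]
              norm_num
            rw [h6] at h5
            obtain ⟨c', hc'⟩ := hH.gr_zero Y _ h5
            have h4 : H.tr (Y.prod Y) (H.pull (fst Y Y) x * H.pull (snd Y Y) (H.cl a₀)) =
                H.tr Y x := by
              rw [tr_fst, ← H.cl_pull, ← H.cl_push, ha₁ Y, map_one, mul_one]
            have h7 : H.tr Y x = c' * H.tr Y (H.cl a₀) := by
              rw [← h4, tr_snd, hc', smul_mul_assoc, one_mul, map_smul, smul_eq_mul]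
            refine ⟨c', sub_eq_zero.1 (H.nondeg _ fun b => ?_)⟩
            refine homog_induction H.toTheoryData (p := fun b =>
              H.tr Y ((x - c' • H.cl a₀) * b) = 0) ?_ ?_ b
            · intro i b hb
              have h8 : x - c' • H.cl a₀ ∈ H.gr Y 2 :=
                Submodule.sub_mem _ hx (Submodule.smul_mem _ _ h2)
              by_cases hi : i = 0
              · subst hi
                obtain ⟨e, rfl⟩ := hH.gr_zero Y b hb
                rw [mul_smul_comm, mul_one, map_smul, map_sub, map_smul, h7, smul_eq_mul c',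
                  sub_self, smul_zero]
              · exact tr_zero H (H.mul_mem h8 hb) (by omega)
            · intro a b ha hb
              rw [mul_add, map_add, ha, hb, add_zero]
          obtain ⟨c, rfl⟩ := h3
          refine Submodule.smul_mem _ _ (Submodule.subset_span ⟨[], Y.dim, a₀, by simp, ha₀, ?_⟩)
          rw [word_nil, one_mul]
        · have h3 : x = 0 := by
            have h4 : H.gr Y i = ⊥ := gr_top H (by rw [hdim]; push_cast; omega)
            rw [h4] at hx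
            exact (Submodule.mem_bot _).1 hx
          rw [h3]
          exact Submodule.zero_mem _
  · intro x y hx hy
    exact Submodule.add_mem _ hx hy

/-- The cohomology of products of curves. -/
lemma WC_prods [IsAlgClosed K] (hFr : IsFrobTheory H Fr p a)
    (hA : IsCurveClass H Fr (p ^ a) 𝒞) : ∀ (Y : 𝒱.Obj) (l : List 𝒱.Obj),
    (∀ Z ∈ Y :: l, Z ∈ 𝒞) → ∀ x : H.A (prodL Y l), x ∈ WC H Fr 𝒞 B (prodL Y l) := by
  intro Y l
  induction l with
  | nil => exact fun h x => WC_curve hFr hA (h Y List.mem_cons_self) x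
  | cons Z l ih =>
    intro h x
    have h1 := ih fun V hV => h V (by
      rcases List.mem_cons.1 hV with rfl | hV
      · exact List.mem_cons_self
      · exact List.mem_cons_of_mem _ (List.mem_cons_of_mem _ hV))
    have h2 := fun y => WC_curve (B := B) hFr hA (h Z (List.mem_cons_of_mem _ List.mem_cons_self)) y
    refine homog_induction H.toTheoryData (p := fun x => x ∈ WC H Fr 𝒞 B (prodL Y (Z :: l)))
      ?_ ?_ x
    · intro m x hx
      refine (Submodule.span_le (p := WC H Fr 𝒞 B ((prodL Y l).prod Z))).2 ?_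
        (H.kunneth (prodL Y l) Z m hx)
      rintro _ ⟨i, c, b, -, -, rfl⟩
      exact WC_mul (WC_pull _ (h1 c)) (WC_pull _ (h2 b))
    · intro x y hx hy
      exact Submodule.add_mem _ hx hy

/-- **The strong Tate conjecture from the rules.** -/
theorem strong_of_rulesC [IsAlgClosed K] (hFr : IsFrobTheory H Fr p a) (ha : 0 < a)
    (hA : IsCurveClass H Fr (p ^ a) 𝒞) {r : K} (hr : IsWeilNumber (p ^ a) 1 r)
    (R : Rules1 (p ^ a) r (Alg H Fr 𝒞 B)) (hW : W ∈ allProds 𝒞) :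
    StrongTate H Fr (p ^ a) W := by
  have hq1 : 1 < p ^ a := one_lt_pow_prime ha
  have hq : 0 < p ^ a := by omega
  have hq0 : ((p ^ a : ℕ) : K) ≠ 0 := by exact_mod_cast hq.ne'
  obtain ⟨n, Y, l, hl, -, rfl⟩ := hW
  intro j x hx hxg
  refine mem_aSpan_of hx ?_
  have hgen : ∀ v ∈ {v | ∃ (L : List (Let H Fr 𝒞 B (prodL Y l))) (i : ℕ) (z : C.A (prodL Y l)),
      (∀ l ∈ L, ∃ α, l.lab = Sum.inl α) ∧ C.Deg i z ∧ v = word L * H.cl z},
      ∃ μ, v ∈ (hF H (Fr (prodL Y l))).maxGenEigenspace μ := by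
    rintro v ⟨L, i, z, -, hz, rfl⟩
    refine ⟨_, gen_mul (word_gen hFr.nat L) (ν := ((p ^ a : ℕ) : K) ^ i) (eig_mem_gen ?_)⟩
    have h2 : C.pull (Fr (prodL Y l)) z = ((p ^ a : ℕ) : ℚ) ^ i • z :=
      (hFr.frobenius (prodL Y l)).chow i _ hz
    change H.pull (Fr (prodL Y l)) (H.cl z) = _
    rw [← H.cl_pull, h2, cl_smul]
    push_cast
    rfl
  have h3 := mem_span_gen (T := hF H (Fr (prodL Y l))) hgen (WC_prods (B := B) hFr hA Y l hl x)
    (gen_iff.1 hxg)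
  refine (Submodule.span_le (p := aTot H (prodL Y l))).2 ?_ h3
  rintro v ⟨⟨L, i, z, hL, hz, rfl⟩, hvμ⟩
  by_cases hv0 : word L * H.cl z = 0
  · rw [hv0]
    exact Submodule.zero_mem _
  have hzi : H.cl z ∈ (hF H (Fr (prodL Y l))).maxGenEigenspace (((p ^ a : ℕ) : K) ^ i) := by
    apply eig_mem_gen
    have h2 : C.pull (Fr (prodL Y l)) z = ((p ^ a : ℕ) : ℚ) ^ i • z :=
      (hFr.frobenius (prodL Y l)).chow i _ hz
    change H.pull (Fr (prodL Y l)) (H.cl z) = _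
    rw [← H.cl_pull, h2, cl_smul]
    push_cast
    rfl
  have h4 := eq_of_mem_gen (gen_mul (word_gen hFr.nat L) hzi) hvμ hv0
  obtain ⟨h5, h6⟩ := word_weil hFr L (left_ne_zero_of_mul hv0)
  have h7 : L.length + 2 * i = 2 * j := by
    have h8 := weil_mul h6 (weil_pow (weil_q (K := K) (p ^ a)) i)
    rw [h4] at h8
    have h9 := weight_unique hq1 h8 (weil_pow (weil_q (K := K) (p ^ a)) j)
    omega
  have h7' : L.length = 2 * (j - i) := by omega
  have h4' : eg (labs L) = ((p ^ a : ℕ) : K) ^ (j - i) := by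
    have h8 : ((p ^ a : ℕ) : K) ^ j =
        ((p ^ a : ℕ) : K) ^ (j - i) * ((p ^ a : ℕ) : K) ^ i := by
      rw [← pow_add]
      congr 1
      omega
    rw [h8] at h4
    exact mul_right_cancel₀ (pow_ne_zero _ hq0) h4
  -- the labels
  obtain ⟨s, hs⟩ : ∃ s : Multiset K, labs L = s.map Sum.inl := by
    refine ⟨(labs L).map egL, ?_⟩
    rw [Multiset.map_map]
    conv_lhs => rw [← Multiset.map_id (labs L)]
    refine Multiset.map_congr rfl fun x hx => ?_
    obtain ⟨l, hl, rfl⟩ := Multiset.mem_map.1 hx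
    obtain ⟨α, hα⟩ := hL l (Multiset.mem_coe.1 hl)
    rw [hα]
    rfl
  have h8 := R.all hq hr s (fun x hx => by
    have h9 := h5 (Sum.inl x) (by
      rw [hs]
      exact Multiset.mem_map_of_mem _ hx)
    exact h9) (j := j - i) (by rw [← h7', ← card_labs, hs, Multiset.card_map]) (by
    rw [← h4', eg, hs, Multiset.map_map]
    have h10 : s.map (egL ∘ (Sum.inl : K → K ⊕ K)) = s.map id := rfl
    rw [h10, Multiset.map_id])
  exact aTot_mul (h8 _ L hs) (cl_mem_aTot z)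

/-- The vanishing of pure theories on the varieties generated by curves. -/
lemma vanish_sumC (hFr : IsFrobTheory H Fr p a) (ha : 0 < a)
    (hA : IsCurveClass H Fr (p ^ a) 𝒞) (hT : ∀ W ∈ allProds 𝒞, StrongTate H Fr (p ^ a) W)
    {T : CorrData C} (hTp : IsPure T Fr (p ^ a)) (hZ : IsSumFactor C (allProds 𝒞) Z) (i : ℤ) :
    T.gr Z i = ⊥ :=
  hZ.vanish hTp.corr (fun W hW i => vanish_one hFr ha (nilp_iff.1 (homNilp_nilp (hA.nilp W hW))) (hT W hW) hTp i) i

lemma four_factor : IsFactor C ((X.prod X).prod (X.prod B)) (((X.prod X).prod X).prod B) := by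
  let f : (X.prod X).prod (X.prod B) ⟶ ((X.prod X).prod X).prod B :=
    Obj.lift (Obj.lift (fst _ _) (snd (X.prod X) (X.prod B) ≫ fst X B))
      (snd (X.prod X) (X.prod B) ≫ snd X B)
  let g : ((X.prod X).prod X).prod B ⟶ (X.prod X).prod (X.prod B) :=
    Obj.lift (fst _ _ ≫ fst _ _) (Obj.lift (fst ((X.prod X).prod X) B ≫ snd (X.prod X) X)
      (snd ((X.prod X).prod X) B))
  refine IsFactor.of_iso (f := f) (g := g) ?_
  apply prod_ext
  · apply prod_ext <;> simp [f, g, Pool.Agent.Y133.Half.comp_lift]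
  · apply prod_ext <;> simp [f, g, Pool.Agent.Y133.Half.comp_lift]

lemma four_sum (hX : X ∈ 𝒞) (hB : B ∈ 𝒞) : IsSumFactor C (allProds 𝒞) (four X B) := by
  refine (four_factor (C := C) (X := X) (B := B)).sum ⟨4, X, [B, X, X], ?_, by simp, rfl⟩
  intro V hV
  simp only [List.mem_cons, List.not_mem_nil, or_false] at hV
  rcases hV with rfl | rfl | rfl | rfl <;> assumption

lemma spanTwo_mem {i j : ℤ} {p : Submodule K (H.A X)} {p' : Submodule K (H.A Y)}
    (hp : p ≤ H.gr X i) (hp' : p' ≤ H.gr Y j) :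
    spanTwo (H.pull (fst X Y)) (H.pull (snd X Y)) p p' ≤ H.gr (X.prod Y) (i + j) := by
  refine Submodule.span_le.2 ?_
  rintro _ ⟨x, hx, y, hy, rfl⟩
  exact H.mul_mem (H.pull_mem _ (hp hx)) (H.pull_mem _ (hp' hy))

lemma oneOneOneOne_mem {x : H.A (four X B)} (hx : x ∈ oneOneOneOne H X B) :
    x ∈ H.gr (four X B) (2 * (2 : ℕ)) := by
  have h1 := spanTwo_mem (H := H) (X := X) (Y := X) (le_refl (H.gr X 1)) (le_refl (H.gr X 1))
  have h2 := spanTwo_mem (H := H) (X := X) (Y := B) (le_refl (H.gr X 1)) (le_refl (H.gr B 1))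
  exact spanTwo_mem (H := H) (X := X.prod X) (Y := X.prod B) h1 h2 hx

lemma strongFor_iff {q : ℕ} :
    (∀ j : ℕ, TateIn H Fr q Z j (H.gr Z (2 * j))) ↔ StrongTate H Fr q Z :=
  ⟨fun h j x hx hg => h j x hx hg, fun h j x hx hg => h j x hx hg⟩

/-- **The main theorem.** -/
theorem main [IsAlgClosed K] (hcomm : ∀ X : 𝒱.Obj, AnticommOn (H.gr X 1)) (hFr : IsFrobTheory H Fr p a) (ha : 0 < a)
    (hA : IsCurveClass H Fr (p ^ a) 𝒞) (hB : B ∈ 𝒞) (hB1 : IsNonzero (H.gr B 1)) :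
    List.TFAE [
      ∀ Z, IsSumFactor C (allProds 𝒞) Z → ∀ r, ParshinIn C Fr (p ^ a) r Z,
      ∀ X ∈ 𝒞, ParshinIn C Fr (p ^ a) 2 (four X B),
      ∀ X ∈ 𝒞, TateIn H Fr (p ^ a) (four X B) 2 (oneOneOneOne H X B),
      ∀ Z, IsSumFactor C (allProds 𝒞) Z → ∀ j : ℕ,
        TateIn H Fr (p ^ a) Z j (H.gr Z (2 * j))] := by
  obtain ⟨r, x, hx, hx0, hr, hxr⟩ := exists_eigenvalue hFr hB1
  tfae_have 1 → 2 := fun h X hX T => h _ (four_sum hX hB) 2 T
  tfae_have 2 → 3 := by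
    intro h X hX
    have h1 := h X hX (toPure _ hFr.cohData_pure)
    have h2 : StrongTateAt H (Fr (four X B)) (p ^ a) 2 := strong_of_coh h1
    intro x hx' hx
    exact h2 x (oneOneOneOne_mem hx') hx
  tfae_have 3 → 4 := by
    intro h Z hZ
    have R := rulesC hcomm hFr hA (hA.dim B hB) hx hx0 hr hxr h
    have hT : ∀ W ∈ allProds 𝒞, StrongTate H Fr (p ^ a) W := fun W hW =>
      strong_of_rulesC hFr ha hA hr R hW
    exact strongFor_iff.2
      (numTate_of_vanish hFr fun T hT' i => vanish_sumC hFr ha hA hT hT' hZ i).2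
  tfae_have 4 → 1 := by
    intro h Z hZ i T
    have hT : ∀ W ∈ allProds 𝒞, StrongTate H Fr (p ^ a) W := fun W hW =>
      strongFor_iff.1 (h W ((IsFactor.refl W).sum hW))
    exact vanish_sumC hFr ha hA hT T.isPure hZ i
  tfae_finish

end Pool.Agent.Q56.FK
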